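import Mathlib

/-! The linear algebra of the Serre functor on the numerical classes. -/

set_option autoImplicit false

namespace Pool.Agent.Y197.SI

theorem indep {g : ℂ →ₗ[ℝ] ℂ} {y₁ y₂ : ℂ} (e1 : g y₁ = y₂) (e2 : g y₂ = -y₁) (h : y₁ ≠ 0)
    (s t : ℝ) (hst : (s : ℂ) * y₁ + (t : ℂ) * y₂ = 0) : s = 0 ∧ t = 0 := by
  have h1 : (s : ℂ) * y₂ - (t : ℂ) * y₁ = 0 := by
    have h2 := congrArg g hst
    rw [map_add, map_zero] at h2
    simp only [← Complex.real_smul, map_smul, e1, e2] at h2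
    simp only [Complex.real_smul] at h2
    linear_combination h2
  have h3 : ((s ^ 2 + t ^ 2 : ℝ) : ℂ) * y₁ = 0 := by
    push_cast
    linear_combination (s : ℂ) * hst - (t : ℂ) * h1
  have h4 : s ^ 2 + t ^ 2 = 0 := by
    rcases mul_eq_zero.1 h3 with h5 | h5
    · exact_mod_cast h5
    · exact absurd h5 h
  constructor <;> nlinarith [sq_nonneg s, sq_nonneg t]

theorem span {y₁ y₂ : ℂ} (h : ∀ s t : ℝ, (s : ℂ) * y₁ + (t : ℂ) * y₂ = 0 → s = 0 ∧ t = 0)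
    (x : ℂ) : ∃ s t : ℝ, x = (s : ℂ) * y₁ + (t : ℂ) * y₂ := by
  have hli : LinearIndependent ℝ ![y₁, y₂] := by
    rw [LinearIndependent.pair_iff]
    intro s t hst
    exact h s t (by simpa [Complex.real_smul] using hst)
  have hs := hli.span_eq_top_of_card_eq_finrank (by simp [Complex.finrank_real_complex])
  have hx : x ∈ Submodule.span ℝ (Set.range ![y₁, y₂]) := by rw [hs]; trivial
  rw [Matrix.range_cons, Matrix.range_cons, Matrix.range_empty, Set.union_empty,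
    Set.singleton_union, Submodule.mem_span_pair] at hx
  obtain ⟨s, t, hst⟩ := hx
  exact ⟨s, t, by rw [← hst, Complex.real_smul, Complex.real_smul]⟩

/-- The possible central charges `z₀ ch₀ + z₁ ch₁ + z₂ ch₂`. -/
theorem alg (z₀ z₁ z₂ : ℂ) (g : ℂ →ₗ[ℝ] ℂ)
    (h1 : g (16 * z₀ - 4 * z₁ - 2 * z₂) = 8 * z₀ - 4 * z₁ + 2 * z₂)
    (h2 : g (56 * z₀ - 8 * z₁ - 8 * z₂) = 24 * z₀ - 16 * z₁ + 12 * z₂)
    (h3 : g (136 * z₀ - 12 * z₁ - 18 * z₂) = 64 * z₀ - 52 * z₁ + 38 * z₂) :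
    (z₁ = 2 * z₀ ∧ LinearIndependent ℝ ![z₀, z₂]) ∨ (z₁ = z₀ ∧ z₂ = 2 * z₀) := by
  have ex : ∀ a b c : ℝ, g ((a : ℂ) * (16 * z₀ - 4 * z₁ - 2 * z₂) +
      (b : ℂ) * (56 * z₀ - 8 * z₁ - 8 * z₂) + (c : ℂ) * (136 * z₀ - 12 * z₁ - 18 * z₂)) =
      (a : ℂ) * (8 * z₀ - 4 * z₁ + 2 * z₂) + (b : ℂ) * (24 * z₀ - 16 * z₁ + 12 * z₂) +
        (c : ℂ) * (64 * z₀ - 52 * z₁ + 38 * z₂) := by
    intro a b c
    rw [← h1, ← h2, ← h3, map_add, map_add]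
    simp only [← Complex.real_smul, map_smul]
  obtain ⟨x₀, hx0⟩ : ∃ x₀, x₀ = 2 * z₀ - z₁ := ⟨_, rfl⟩
  obtain ⟨y₁, hy1⟩ : ∃ y₁, y₁ = z₂ - 2 * z₀ := ⟨_, rfl⟩
  obtain ⟨y₂, hy2⟩ : ∃ y₂, y₂ = 2 * z₀ - 2 * z₁ := ⟨_, rfl⟩
  have e0 : g x₀ = x₀ := by
    have h := ex (11/16) (-5/16) (1/16)
    have l : (((11/16 : ℝ) : ℂ) * (16 * z₀ - 4 * z₁ - 2 * z₂) +
      ((-5/16 : ℝ) : ℂ) * (56 * z₀ - 8 * z₁ - 8 * z₂) + ((1/16 : ℝ) : ℂ) *
        (136 * z₀ - 12 * z₁ - 18 * z₂)) = x₀ := by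
      rw [hx0]; push_cast; ring
    have r : (((11/16 : ℝ) : ℂ) * (8 * z₀ - 4 * z₁ + 2 * z₂) + ((-5/16 : ℝ) : ℂ) *
        (24 * z₀ - 16 * z₁ + 12 * z₂) +
        ((1/16 : ℝ) : ℂ) * (64 * z₀ - 52 * z₁ + 38 * z₂)) = x₀ := by
      rw [hx0]; push_cast; ring
    rwa [l, r] at h
  have e1 : g y₁ = y₂ := by
    have h := ex (5/4) (-1) (1/4)
    have l : (((5/4 : ℝ) : ℂ) * (16 * z₀ - 4 * z₁ - 2 * z₂) +
      ((-1 : ℝ) : ℂ) * (56 * z₀ - 8 * z₁ - 8 * z₂) + ((1/4 : ℝ) : ℂ) *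
        (136 * z₀ - 12 * z₁ - 18 * z₂)) = y₁ := by
      rw [hy1]; push_cast; ring
    have r : (((5/4 : ℝ) : ℂ) * (8 * z₀ - 4 * z₁ + 2 * z₂) + ((-1 : ℝ) : ℂ) *
        (24 * z₀ - 16 * z₁ + 12 * z₂) +
        ((1/4 : ℝ) : ℂ) * (64 * z₀ - 52 * z₁ + 38 * z₂)) = y₂ := by
      rw [hy2]; push_cast; ring
    rwa [l, r] at h
  have e2 : g y₂ = -y₁ := by
    have h := ex 1 (-1/4) 0
    have l : (((1 : ℝ) : ℂ) * (16 * z₀ - 4 * z₁ - 2 * z₂) +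
      ((-1/4 : ℝ) : ℂ) * (56 * z₀ - 8 * z₁ - 8 * z₂) + ((0 : ℝ) : ℂ) *
        (136 * z₀ - 12 * z₁ - 18 * z₂)) = y₂ := by
      rw [hy2]; push_cast; ring
    have r : (((1 : ℝ) : ℂ) * (8 * z₀ - 4 * z₁ + 2 * z₂) + ((-1/4 : ℝ) : ℂ) *
        (24 * z₀ - 16 * z₁ + 12 * z₂) +
        ((0 : ℝ) : ℂ) * (64 * z₀ - 52 * z₁ + 38 * z₂)) = -y₁ := by
      rw [hy1]; push_cast; ring
    rwa [l, r] at h
  by_cases hy : y₁ = 0
  · right
    have h4 : y₂ = 0 := by rw [← e1, hy, map_zero]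
    rw [hy] at hy1
    rw [h4] at hy2
    exact ⟨by linear_combination (1 / 2 : ℂ) * hy2, by linear_combination -hy1⟩
  · left
    have hi := indep e1 e2 hy
    have hx : x₀ = 0 := by
      obtain ⟨s, t, hst⟩ := span hi x₀
      have h5 : g x₀ = (s : ℂ) * y₂ - (t : ℂ) * y₁ := by
        conv_lhs => rw [hst]
        rw [map_add]
        simp only [← Complex.real_smul, map_smul, e1, e2]
        simp only [Complex.real_smul]
        ring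
      have h6 : g (g x₀) = -x₀ := by
        rw [h5, map_sub]
        simp only [← Complex.real_smul, map_smul, e1, e2]
        simp only [Complex.real_smul]
        rw [hst]
        ring
      rw [e0, e0] at h6
      have h7 : 2 * x₀ = 0 := by linear_combination h6
      simpa using h7
    rw [hx] at hx0
    have hz : z₁ = 2 * z₀ := by linear_combination hx0
    refine ⟨hz, ?_⟩
    rw [LinearIndependent.pair_iff]
    intro a b hab
    simp only [Complex.real_smul] at hab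
    have h8 := hi b (-a / 2 - b) (by
      rw [hy1, hy2, hz]
      push_cast
      linear_combination hab)
    exact ⟨by linarith [h8.1, h8.2], h8.1⟩

end Pool.Agent.Y197.SI
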