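import Mathlib
import Pool.Agent.H969R2.Main
import Pool.Agent.Y197.SI.Alg

set_option autoImplicit false
set_option linter.unusedSectionVars false
set_option linter.unusedVariables false

open CategoryTheory CategoryTheory.Limits CategoryTheory.Pretriangulated CategoryTheory.Abelian

namespace Pool.Agent.Y197.SI

open Pool.Agent.H969R2

universe w v u

section

variable {A : Type u} [Category.{v} A] [Abelian A] [Linear ℂ A] [HasDerivedCategory.{w} A]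

/-- The charge `z₀ H³ch₀ + z₁ H²ch₁ + z₂ Hch₂`. -/
noncomputable def Zg (O : ℤ → A) (z₀ z₁ z₂ : ℂ) (E : DerivedCategory A) : ℂ :=
  z₀ * ch0 O E + z₁ * ch1 O E + z₂ * ch2 O E

theorem Zg_val (O : ℤ → A) (z₀ z₁ z₂ : ℂ) (E : DerivedCategory A) {a b c : ℝ}
    (h : hilb O E 0 = 0 ∧ hilb O E (-1) = a ∧ hilb O E (-2) = b ∧ hilb O E (-3) = c) :
    Zg O z₀ z₁ z₂ E = z₀ * ((-3 * a + 3 * b - c : ℝ) : ℂ) +
      z₁ * ((-2 * a + b + (-3 * a + 3 * b - c) / 2 : ℝ) : ℂ) +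
      z₂ * ((-a - (-3 * a + 3 * b - c) / 2 : ℝ) : ℂ) := by
  obtain ⟨h0, h1, h2, h3⟩ := h
  unfold Zg ch2 ch1 ch0
  rw [h0, h1, h2, h3]
  push_cast
  ring

variable (coh : ObjectProperty A) (hiso : ∀ M N : A, (M ≅ N) → coh M → coh N)

include hiso

variable [HasExt.{w} A]

/-- Three objects of the Kuznetsov component, their classes and those of their images by every
Serre functor. -/
theorem objects (O : ℤ → A) (hO : LBDims.{w} O)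
    (hgen : ∀ n : ℤ, 1 ≤ n → n ≤ 3 → ∀ (Z : A) (g : O n ⟶ Z),
      (∀ h : O 0 ⟶ O n, h ≫ g = 0) → g = 0)
    (h0 : ∀ Z : A, IsZero Z → coh Z)
    (hK : ∀ (m : ℕ) (Z K : A) (_ : Dec m Z (O 0)) (i : K ⟶ Z), Mono i → coh K) :
    ∃ K₁ K₂ K₃ : (Ku coh O).FullSubcategory,
      (hilb O K₁.obj 0 = 0 ∧ hilb O K₁.obj (-1) = -6 ∧ hilb O K₁.obj (-2) = -24 ∧
        hilb O K₁.obj (-3) = -70) ∧
      (hilb O K₂.obj 0 = 0 ∧ hilb O K₂.obj (-1) = -20 ∧ hilb O K₂.obj (-2) = -76 ∧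
        hilb O K₂.obj (-3) = -224) ∧
      (hilb O K₃.obj 0 = 0 ∧ hilb O K₃.obj (-1) = -50 ∧ hilb O K₃.obj (-2) = -180 ∧
        hilb O K₃.obj (-3) = -526) ∧
      ∀ (S : (Ku coh O).FullSubcategory → (Ku coh O).FullSubcategory)
        (_ : ∀ E F : (Ku coh O).FullSubcategory,
          Nonempty ((E ⟶ F) ≃ₗ[ℂ] Module.Dual ℂ (F ⟶ S E))),
        (hilb O (S K₁).obj 0 = 0 ∧ hilb O (S K₁).obj (-1) = -6 ∧
          hilb O (S K₁).obj (-2) = -20 ∧ hilb O (S K₁).obj (-3) = -50) ∧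
        (hilb O (S K₂).obj 0 = 0 ∧ hilb O (S K₂).obj (-1) = -24 ∧
          hilb O (S K₂).obj (-2) = -76 ∧ hilb O (S K₂).obj (-3) = -180) ∧
        (hilb O (S K₃).obj 0 = 0 ∧ hilb O (S K₃).obj (-1) = -70 ∧
          hilb O (S K₃).obj (-2) = -224 ∧ hilb O (S K₃).obj (-3) = -526) := by
  have hmut : ∀ n : ℤ, 1 ≤ n → n ≤ 3 → ∃ K : (Ku coh O).FullSubcategory,
      (∀ F : DerivedCategory A, Ku coh O F → chi (sg (O n)) F = - chi K.obj F) ∧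
      (∀ a : ℤ, 0 ≤ a → a ≤ 3 →
        chi (sg (O a)) K.obj = (hS n : ℤ) * hval (-a) - hval (n - a)) := by
    intro n h1 h2
    obtain ⟨S, hS', d, h3, hz⟩ := exists_mutation hO n h1 h2 (hgen n h1 h2)
    have hKu : Ku coh O (sg S.X₁) := ⟨Db_sg coh hiso h0 _ (hK _ _ _ d S.f hS'.mono_f), hz⟩
    have d' : Dec (hS n) (sg S.X₂) (sg (O 0)) := d.map (DerivedCategory.singleFunctor A 0)
    refine ⟨⟨sg S.X₁, hKu⟩, fun F hF => ?_, fun a ha1 ha2 => ?_⟩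
    · have h4 : chi (sg S.X₁) F = - chi (sg S.X₃) F :=
        chi_contra hS'.singleTriangle_distinguished F (fun i x => d'.zero_left (hF.2 i) x)
      rw [h3] at h4
      change _ = - chi (sg S.X₁) F
      rw [h4, neg_neg]
    · have t := hS'.singleTriangle_distinguished
      have n0 : Nice (sg (O a)) (sg (O 0)) := LB_nice hO a 0 (by lia) (by lia)
      obtain ⟨nZ, cZ⟩ := d'.nice n0
      have nn : Nice (sg (O a)) (sg S.X₃) := by rw [h3]; exact LB_nice hO a n (by lia) (by lia)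
      have nK : Nice (sg (O a)) (sg S.X₁) := Nice.left t nZ nn
      have h5 : chi (sg (O a)) (sg S.X₂) = chi (sg (O a)) (sg S.X₁) + chi (sg (O a)) (sg S.X₃) :=
        chi_add t nK nZ nn
      rw [cZ, h3, LB_chi hO a 0 (by lia) (by lia), LB_chi hO a n (by lia) (by lia)] at h5
      change chi (sg (O a)) (sg S.X₁) = _
      rw [zero_sub] at h5
      lia
  obtain ⟨K₁, c₁, e₁⟩ := hmut 1 (by norm_num) (by norm_num)
  obtain ⟨K₂, c₂, e₂⟩ := hmut 2 (by norm_num) (by norm_num)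
  obtain ⟨K₃, c₃, e₃⟩ := hmut 3 (by norm_num) (by norm_num)
  have z0 : ∀ K : (Ku coh O).FullSubcategory, chi (sg (O 0)) K.obj = 0 := by
    intro K
    rw [chi_eq_sum 0 (fun i _ => K.property.2 i)]
    simp only [neg_zero, Finset.Icc_self, Finset.sum_singleton]
    have h1 : ∀ g : sg (O 0) ⟶ K.obj⟦(0 : ℤ)⟧, g = 0 := K.property.2 0
    rw [(HasDim.zero h1).2]
    simp
  have v11 : chi (sg (O 1)) K₁.obj = -6 := by
    rw [e₁ 1 (by norm_num) (by norm_num)]; norm_num [hval_m3, hval_m2, hval_m1, hval_0, hval_1, hval_2, hval_3, hS_1, hS_2, hS_3]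
  have v12 : chi (sg (O 2)) K₁.obj = -24 := by
    rw [e₁ 2 (by norm_num) (by norm_num)]; norm_num [hval_m3, hval_m2, hval_m1, hval_0, hval_1, hval_2, hval_3, hS_1, hS_2, hS_3]
  have v13 : chi (sg (O 3)) K₁.obj = -70 := by
    rw [e₁ 3 (by norm_num) (by norm_num)]; norm_num [hval_m3, hval_m2, hval_m1, hval_0, hval_1, hval_2, hval_3, hS_1, hS_2, hS_3]
  have v21 : chi (sg (O 1)) K₂.obj = -20 := by
    rw [e₂ 1 (by norm_num) (by norm_num)]; norm_num [hval_m3, hval_m2, hval_m1, hval_0, hval_1, hval_2, hval_3, hS_1, hS_2, hS_3]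
  have v22 : chi (sg (O 2)) K₂.obj = -76 := by
    rw [e₂ 2 (by norm_num) (by norm_num)]; norm_num [hval_m3, hval_m2, hval_m1, hval_0, hval_1, hval_2, hval_3, hS_1, hS_2, hS_3]
  have v23 : chi (sg (O 3)) K₂.obj = -224 := by
    rw [e₂ 3 (by norm_num) (by norm_num)]; norm_num [hval_m3, hval_m2, hval_m1, hval_0, hval_1, hval_2, hval_3, hS_1, hS_2, hS_3]
  have v31 : chi (sg (O 1)) K₃.obj = -50 := by
    rw [e₃ 1 (by norm_num) (by norm_num)]; norm_num [hval_m3, hval_m2, hval_m1, hval_0, hval_1, hval_2, hval_3, hS_1, hS_2, hS_3]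
  have v32 : chi (sg (O 2)) K₃.obj = -180 := by
    rw [e₃ 2 (by norm_num) (by norm_num)]; norm_num [hval_m3, hval_m2, hval_m1, hval_0, hval_1, hval_2, hval_3, hS_1, hS_2, hS_3]
  have v33 : chi (sg (O 3)) K₃.obj = -526 := by
    rw [e₃ 3 (by norm_num) (by norm_num)]; norm_num [hval_m3, hval_m2, hval_m1, hval_0, hval_1, hval_2, hval_3, hS_1, hS_2, hS_3]
  have a1 : hilb O K₁.obj 0 = 0 ∧ hilb O K₁.obj (-1) = -6 ∧ hilb O K₁.obj (-2) = -24 ∧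
      hilb O K₁.obj (-3) = -70 := by
    refine ⟨?_, ?_, ?_, ?_⟩
    · exact (hilb_eq O _ _ 0 (by norm_num) _ (z0 _)).trans (by norm_num)
    · exact (hilb_eq O _ _ 1 (by norm_num) _ v11).trans (by norm_num)
    · exact (hilb_eq O _ _ 2 (by norm_num) _ v12).trans (by norm_num)
    · exact (hilb_eq O _ _ 3 (by norm_num) _ v13).trans (by norm_num)
  have a2 : hilb O K₂.obj 0 = 0 ∧ hilb O K₂.obj (-1) = -20 ∧ hilb O K₂.obj (-2) = -76 ∧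
      hilb O K₂.obj (-3) = -224 := by
    refine ⟨?_, ?_, ?_, ?_⟩
    · exact (hilb_eq O _ _ 0 (by norm_num) _ (z0 _)).trans (by norm_num)
    · exact (hilb_eq O _ _ 1 (by norm_num) _ v21).trans (by norm_num)
    · exact (hilb_eq O _ _ 2 (by norm_num) _ v22).trans (by norm_num)
    · exact (hilb_eq O _ _ 3 (by norm_num) _ v23).trans (by norm_num)
  have a3 : hilb O K₃.obj 0 = 0 ∧ hilb O K₃.obj (-1) = -50 ∧ hilb O K₃.obj (-2) = -180 ∧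
      hilb O K₃.obj (-3) = -526 := by
    refine ⟨?_, ?_, ?_, ?_⟩
    · exact (hilb_eq O _ _ 0 (by norm_num) _ (z0 _)).trans (by norm_num)
    · exact (hilb_eq O _ _ 1 (by norm_num) _ v31).trans (by norm_num)
    · exact (hilb_eq O _ _ 2 (by norm_num) _ v32).trans (by norm_num)
    · exact (hilb_eq O _ _ 3 (by norm_num) _ v33).trans (by norm_num)
  refine ⟨K₁, K₂, K₃, a1, a2, a3, fun S η => ?_⟩
  have hs : ∀ (n : ℤ) (K : (Ku coh O).FullSubcategory)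
      (c : ∀ F : DerivedCategory A, Ku coh O F → chi (sg (O n)) F = - chi K.obj F)
      (a : ℤ) (K' : (Ku coh O).FullSubcategory)
      (c' : ∀ F : DerivedCategory A, Ku coh O F → chi (sg (O a)) F = - chi K'.obj F),
      chi (sg (O n)) (S K').obj = chi (sg (O a)) K.obj := by
    intro n K c a K' c'
    rw [c _ (S K').property, chi_serre coh hiso O S η K' K, c' _ K.property]
  have b1 : hilb O (S K₁).obj 0 = 0 ∧ hilb O (S K₁).obj (-1) = -6 ∧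
      hilb O (S K₁).obj (-2) = -20 ∧ hilb O (S K₁).obj (-3) = -50 := by
    refine ⟨?_, ?_, ?_, ?_⟩
    · exact (hilb_eq O _ _ 0 (by norm_num) _ (z0 _)).trans (by norm_num)
    · exact (hilb_eq O _ _ 1 (by norm_num) _ ((hs 1 K₁ c₁ 1 K₁ c₁).trans v11)).trans (by norm_num)
    · exact (hilb_eq O _ _ 2 (by norm_num) _ ((hs 2 K₂ c₂ 1 K₁ c₁).trans v21)).trans (by norm_num)
    · exact (hilb_eq O _ _ 3 (by norm_num) _ ((hs 3 K₃ c₃ 1 K₁ c₁).trans v31)).trans (by norm_num)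
  have b2 : hilb O (S K₂).obj 0 = 0 ∧ hilb O (S K₂).obj (-1) = -24 ∧
      hilb O (S K₂).obj (-2) = -76 ∧ hilb O (S K₂).obj (-3) = -180 := by
    refine ⟨?_, ?_, ?_, ?_⟩
    · exact (hilb_eq O _ _ 0 (by norm_num) _ (z0 _)).trans (by norm_num)
    · exact (hilb_eq O _ _ 1 (by norm_num) _ ((hs 1 K₁ c₁ 2 K₂ c₂).trans v12)).trans (by norm_num)
    · exact (hilb_eq O _ _ 2 (by norm_num) _ ((hs 2 K₂ c₂ 2 K₂ c₂).trans v22)).trans (by norm_num)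
    · exact (hilb_eq O _ _ 3 (by norm_num) _ ((hs 3 K₃ c₃ 2 K₂ c₂).trans v32)).trans (by norm_num)
  have b3 : hilb O (S K₃).obj 0 = 0 ∧ hilb O (S K₃).obj (-1) = -70 ∧
      hilb O (S K₃).obj (-2) = -224 ∧ hilb O (S K₃).obj (-3) = -526 := by
    refine ⟨?_, ?_, ?_, ?_⟩
    · exact (hilb_eq O _ _ 0 (by norm_num) _ (z0 _)).trans (by norm_num)
    · exact (hilb_eq O _ _ 1 (by norm_num) _ ((hs 1 K₁ c₁ 3 K₃ c₃).trans v13)).trans (by norm_num)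
    · exact (hilb_eq O _ _ 2 (by norm_num) _ ((hs 2 K₂ c₂ 3 K₃ c₃).trans v23)).trans (by norm_num)
    · exact (hilb_eq O _ _ 3 (by norm_num) _ ((hs 3 K₃ c₃ 3 K₃ c₃).trans v33)).trans (by norm_num)
  exact ⟨b1, b2, b3⟩

omit hiso [HasExt.{w} A] in
/-- The possible central charges. -/
theorem main_core (O : ℤ → A) (K₁ K₂ K₃ S₁ S₂ S₃ : DerivedCategory A)
    (a1 : hilb O K₁ 0 = 0 ∧ hilb O K₁ (-1) = -6 ∧ hilb O K₁ (-2) = -24 ∧ hilb O K₁ (-3) = -70)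
    (a2 : hilb O K₂ 0 = 0 ∧ hilb O K₂ (-1) = -20 ∧ hilb O K₂ (-2) = -76 ∧ hilb O K₂ (-3) = -224)
    (a3 : hilb O K₃ 0 = 0 ∧ hilb O K₃ (-1) = -50 ∧ hilb O K₃ (-2) = -180 ∧
      hilb O K₃ (-3) = -526)
    (b1 : hilb O S₁ 0 = 0 ∧ hilb O S₁ (-1) = -6 ∧ hilb O S₁ (-2) = -20 ∧ hilb O S₁ (-3) = -50)
    (b2 : hilb O S₂ 0 = 0 ∧ hilb O S₂ (-1) = -24 ∧ hilb O S₂ (-2) = -76 ∧ hilb O S₂ (-3) = -180)
    (b3 : hilb O S₃ 0 = 0 ∧ hilb O S₃ (-1) = -70 ∧ hilb O S₃ (-2) = -224 ∧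
      hilb O S₃ (-3) = -526)
    (z₀ z₁ z₂ : ℂ) (g : ℂ →ₗ[ℝ] ℂ) (h1 : Zg O z₀ z₁ z₂ S₁ = g (Zg O z₀ z₁ z₂ K₁))
    (h2 : Zg O z₀ z₁ z₂ S₂ = g (Zg O z₀ z₁ z₂ K₂)) (h3 : Zg O z₀ z₁ z₂ S₃ = g (Zg O z₀ z₁ z₂ K₃)) :
    (z₁ = 2 * z₀ ∧ LinearIndependent ℝ ![z₀, z₂]) ∨ (z₁ = z₀ ∧ z₂ = 2 * z₀) := by
  refine alg z₀ z₁ z₂ g ?_ ?_ ?_
  · rw [Zg_val O z₀ z₁ z₂ _ a1, Zg_val O z₀ z₁ z₂ _ b1] at h1
    refine Eq.trans (congrArg g ?_) (h1.symm.trans ?_)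
    · push_cast; ring
    · push_cast; ring
  · rw [Zg_val O z₀ z₁ z₂ _ a2, Zg_val O z₀ z₁ z₂ _ b2] at h2
    refine Eq.trans (congrArg g ?_) (h2.symm.trans ?_)
    · push_cast; ring
    · push_cast; ring
  · rw [Zg_val O z₀ z₁ z₂ _ a3, Zg_val O z₀ z₁ z₂ _ b3] at h3
    refine Eq.trans (congrArg g ?_) (h3.symm.trans ?_)
    · push_cast; ring
    · push_cast; ring

omit hiso [HasExt.{w} A] in
/-- The turn of order four of the plane which is induced on the charge `-ch₂ + i (ch₁ + ch₀ / 2)`. -/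
noncomputable def turn : ℂ →ₗ[ℝ] ℂ where
  toFun z := ⟨z.re - z.im, 2 * z.re - z.im⟩
  map_add' x y := by
    apply Complex.ext <;> simp <;> ring
  map_smul' r x := by
    apply Complex.ext <;> simp <;> ring

omit hiso [HasExt.{w} A] in
/-- The exceptional charge is compatible with the Serre functor. -/
theorem exc (O : ℤ → A) (K₁ K₂ K₃ S₁ S₂ S₃ : DerivedCategory A)
    (a1 : hilb O K₁ 0 = 0 ∧ hilb O K₁ (-1) = -6 ∧ hilb O K₁ (-2) = -24 ∧ hilb O K₁ (-3) = -70)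
    (a2 : hilb O K₂ 0 = 0 ∧ hilb O K₂ (-1) = -20 ∧ hilb O K₂ (-2) = -76 ∧ hilb O K₂ (-3) = -224)
    (a3 : hilb O K₃ 0 = 0 ∧ hilb O K₃ (-1) = -50 ∧ hilb O K₃ (-2) = -180 ∧
      hilb O K₃ (-3) = -526)
    (b1 : hilb O S₁ 0 = 0 ∧ hilb O S₁ (-1) = -6 ∧ hilb O S₁ (-2) = -20 ∧ hilb O S₁ (-3) = -50)
    (b2 : hilb O S₂ 0 = 0 ∧ hilb O S₂ (-1) = -24 ∧ hilb O S₂ (-2) = -76 ∧ hilb O S₂ (-3) = -180)
    (b3 : hilb O S₃ 0 = 0 ∧ hilb O S₃ (-1) = -70 ∧ hilb O S₃ (-2) = -224 ∧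
      hilb O S₃ (-3) = -526) :
    Zsq O (-1 / 2) 0 S₁ = turn (Zsq O (-1 / 2) 0 K₁) ∧
    Zsq O (-1 / 2) 0 S₂ = turn (Zsq O (-1 / 2) 0 K₂) ∧
    Zsq O (-1 / 2) 0 S₃ = turn (Zsq O (-1 / 2) 0 K₃) := by
  obtain ⟨a10, a11, a12, a13⟩ := a1
  obtain ⟨a20, a21, a22, a23⟩ := a2
  obtain ⟨a30, a31, a32, a33⟩ := a3
  obtain ⟨b10, b11, b12, b13⟩ := b1
  obtain ⟨b20, b21, b22, b23⟩ := b2
  obtain ⟨b30, b31, b32, b33⟩ := b3
  refine ⟨?_, ?_, ?_⟩ <;> apply Complex.ext <;>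
    simp only [turn, LinearMap.coe_mk, AddHom.coe_mk, Zsq, ch2, ch0, ch1, a10, a11, a12, a13, a20,
      a21, a22, a23, a30, a31, a32, a33, b10, b11, b12, b13, b20, b21, b22, b23, b30, b31, b32,
      b33] <;> norm_num

omit hiso [HasExt.{w} A] in
/-- The three classes are linearly independent. -/
theorem lin (O : ℤ → A) (K₁ K₂ K₃ : DerivedCategory A)
    (a1 : hilb O K₁ 0 = 0 ∧ hilb O K₁ (-1) = -6 ∧ hilb O K₁ (-2) = -24 ∧ hilb O K₁ (-3) = -70)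
    (a2 : hilb O K₂ 0 = 0 ∧ hilb O K₂ (-1) = -20 ∧ hilb O K₂ (-2) = -76 ∧ hilb O K₂ (-3) = -224)
    (a3 : hilb O K₃ 0 = 0 ∧ hilb O K₃ (-1) = -50 ∧ hilb O K₃ (-2) = -180 ∧
      hilb O K₃ (-3) = -526) (a b c : ℝ)
    (h0 : a * ch0 O K₁ + b * ch0 O K₂ + c * ch0 O K₃ = 0)
    (h1 : a * ch1 O K₁ + b * ch1 O K₂ + c * ch1 O K₃ = 0)
    (h2 : a * ch2 O K₁ + b * ch2 O K₂ + c * ch2 O K₃ = 0) : a = 0 ∧ b = 0 ∧ c = 0 := by
  obtain ⟨a10, a11, a12, a13⟩ := a1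
  obtain ⟨a20, a21, a22, a23⟩ := a2
  obtain ⟨a30, a31, a32, a33⟩ := a3
  simp only [ch2, ch0, ch1, a10, a11, a12, a13, a20, a21, a22, a23, a30, a31, a32, a33] at h0 h1 h2
  refine ⟨?_, ?_, ?_⟩ <;> linarith

end

end Pool.Agent.Y197.SI
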