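import Mathlib
import Pool.Agent.H969Q.Final
import Pool.Agent.Y197.SI.Core

/-! Serre-invariant stability conditions on the Kuznetsov component of an arbitrary quartic
threefold: the possible central charges. -/

set_option autoImplicit false
set_option linter.unusedSectionVars false
set_option linter.unusedVariables false
set_option maxHeartbeats 800000

open CategoryTheory CategoryTheory.Limits CategoryTheory.Abelian

namespace Pool.Agent.Y197.SI

open Pool.Agent.H969R2 Pool.Agent.H969Q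

lemma homog {f : MvPolynomial (Fin 5) ℂ} (hf : f.IsHomogeneous 4) : Homog one5 f 4 := by
  intro α hα
  have h1 := hf (MvPolynomial.mem_support_iff.1 hα)
  rw [wt_one5]
  rw [Finsupp.weight_apply, Finsupp.sum_fintype _ _ (by simp)] at h1
  simp only [Pi.one_apply, smul_eq_mul, mul_one] at h1
  have h2 : ((∑ i, α i : ℕ) : ℤ) = ((4 : ℕ) : ℤ) := congrArg _ h1
  push_cast at h2
  exact h2

variable (f : MvPolynomial (Fin 5) ℂ)

theorem obj (hf : f.IsHomogeneous 4) (h0 : f ≠ 0) :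
    ∃ K₁ K₂ K₃ : (H969R2.Ku (Coh' f) (O' f)).FullSubcategory,
      (H969R2.hilb (O' f) K₁.obj 0 = 0 ∧ H969R2.hilb (O' f) K₁.obj (-1) = -6 ∧
        H969R2.hilb (O' f) K₁.obj (-2) = -24 ∧ H969R2.hilb (O' f) K₁.obj (-3) = -70) ∧
      (H969R2.hilb (O' f) K₂.obj 0 = 0 ∧ H969R2.hilb (O' f) K₂.obj (-1) = -20 ∧
        H969R2.hilb (O' f) K₂.obj (-2) = -76 ∧ H969R2.hilb (O' f) K₂.obj (-3) = -224) ∧
      (H969R2.hilb (O' f) K₃.obj 0 = 0 ∧ H969R2.hilb (O' f) K₃.obj (-1) = -50 ∧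
        H969R2.hilb (O' f) K₃.obj (-2) = -180 ∧ H969R2.hilb (O' f) K₃.obj (-3) = -526) ∧
      ∀ (S : (H969R2.Ku (Coh' f) (O' f)).FullSubcategory →
          (H969R2.Ku (Coh' f) (O' f)).FullSubcategory)
        (_ : ∀ E F : (H969R2.Ku (Coh' f) (O' f)).FullSubcategory,
          Nonempty ((E ⟶ F) ≃ₗ[ℂ] Module.Dual ℂ (F ⟶ S E))),
        (H969R2.hilb (O' f) (S K₁).obj 0 = 0 ∧ H969R2.hilb (O' f) (S K₁).obj (-1) = -6 ∧
          H969R2.hilb (O' f) (S K₁).obj (-2) = -20 ∧ H969R2.hilb (O' f) (S K₁).obj (-3) = -50) ∧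
        (H969R2.hilb (O' f) (S K₂).obj 0 = 0 ∧ H969R2.hilb (O' f) (S K₂).obj (-1) = -24 ∧
          H969R2.hilb (O' f) (S K₂).obj (-2) = -76 ∧ H969R2.hilb (O' f) (S K₂).obj (-3) = -180) ∧
        (H969R2.hilb (O' f) (S K₃).obj 0 = 0 ∧ H969R2.hilb (O' f) (S K₃).obj (-1) = -70 ∧
          H969R2.hilb (O' f) (S K₃).obj (-2) = -224 ∧
          H969R2.hilb (O' f) (S K₃).obj (-3) = -526) := by
  have : HasDerivedCategory.{1} (QP one5 (charts (Fin 5)) ℂ) := HasDerivedCategory.standard _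
  have : HasExt.{1} (QP one5 (charts (Fin 5)) ℂ) := hasExt_of_hasDerivedCategory _
  have : HasExt.{1} (QX one5 (charts (Fin 5)) f 4) := hasExt_of_hasDerivedCategory _
  have iso : ∀ n, OX f n ≅ O' f n := fun n => (isoO f n).some
  have hO : LBDims.{1} (O' f) := LBDims.of_iso iso
    (fun a n h1 h2 i => extX_dim.{1} f (homog hf) h0 a n h1 h2 i)
  refine objects (Coh' f) (coh_iso f) (O' f) hO ?_ ?_ ?_
  · intro n h1 h2 Z g h
    have h3 : (iso n).hom ≫ g = 0 := by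
      refine OX_gen f n (by lia) Z ((iso n).hom ≫ g) fun u => ?_
      have h4 := h ((iso 0).inv ≫ u ≫ (iso n).hom)
      rw [← cancel_epi (iso 0).inv, comp_zero, ← h4]
      simp only [Category.assoc]
    rw [← cancel_epi (iso n).hom, h3, comp_zero]
  · exact fun Z hZ => coh_of_cohX f Z (cohX_zero f Z hZ)
  · intro m Z K d i hi
    exact coh_of_cohX f K (cohX_sub f m Z K (d.ofIso (iso 0).symm) i hi)

lemma hK {f : MvPolynomial (Fin 5) ℂ} (E : KU f) : H969Q.Ku f (cpx E) :=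
  ObjectProperty.FullSubcategory.property E

theorem core (hf : f.IsHomogeneous 4) (h0 : f ≠ 0)
    (S : (H969R2.Ku (Coh' f) (O' f)).FullSubcategory → (H969R2.Ku (Coh' f) (O' f)).FullSubcategory)
    (η : ∀ E F : (H969R2.Ku (Coh' f) (O' f)).FullSubcategory,
      Nonempty ((E ⟶ F) ≃ₗ[ℂ] Module.Dual ℂ (F ⟶ S E)))
    (z₀ z₁ z₂ : ℂ) (g : ℂ →ₗ[ℝ] ℂ)
    (hZ : ∀ E : (H969R2.Ku (Coh' f) (O' f)).FullSubcategory,
      Zg (O' f) z₀ z₁ z₂ (S E).obj = g (Zg (O' f) z₀ z₁ z₂ E.obj)) :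
    (z₁ = 2 * z₀ ∧ LinearIndependent ℝ ![z₀, z₂]) ∨ (z₁ = z₀ ∧ z₂ = 2 * z₀) := by
  obtain ⟨K₁, K₂, K₃, a1, a2, a3, hS⟩ := obj f hf h0
  obtain ⟨b1, b2, b3⟩ := hS S η
  exact main_core (O' f) K₁.obj K₂.obj K₃.obj (S K₁).obj (S K₂).obj (S K₃).obj
    a1 a2 a3 b1 b2 b3 z₀ z₁ z₂ g (hZ K₁) (hZ K₂) (hZ K₃)

/-- The possible central charges. -/
theorem charges (hf : f.IsHomogeneous 4) (h0 : f ≠ 0) (𝒮 : H969Q.SerreFunctor f)
    (σ : H969Q.StabCond f) (hσ : H969Q.SerreInvariant σ 𝒮) (z₀ z₁ z₂ : ℂ)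
    (hZ : ∀ E, H969Q.Ku f E →
      σ.Z E = z₀ * H969Q.ch0 E + z₁ * H969Q.ch1 E + z₂ * H969Q.ch2 E) :
    (z₁ = 2 * z₀ ∧ LinearIndependent ℝ ![z₀, z₂]) ∨ (z₁ = z₀ ∧ z₂ = 2 * z₀) := by
  obtain ⟨G, hG⟩ := hσ
  have key : ∀ E : KU f, z₀ * H969Q.ch0 (cpx (im 𝒮.S E)) + z₁ * H969Q.ch1 (cpx (im 𝒮.S E)) +
      z₂ * H969Q.ch2 (cpx (im 𝒮.S E)) =
      (G.g : ℂ →ₗ[ℝ] ℂ) (z₀ * H969Q.ch0 (cpx E) + z₁ * H969Q.ch1 (cpx E) +
        z₂ * H969Q.ch2 (cpx E)) := by
    intro E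
    have h1 := (hG E).1
    rw [hZ _ (hK _), hZ _ (hK _)] at h1
    exact h1
  exact core f hf h0 (fun E => im 𝒮.S E) (fun E F => ⟨𝒮.η E F⟩) z₀ z₁ z₂ G.g key

/-- The unit vector of the rotation. -/
noncomputable def uv (μ : ℝ) : ℂ := (-μ + Complex.I) / ‖(-μ + Complex.I : ℂ)‖

lemma uv_ne (μ : ℝ) : uv μ ≠ 0 := by
  have hc0 : (-μ + Complex.I : ℂ) ≠ 0 := by
    intro h
    have := congrArg Complex.im h
    simp at this
  refine div_ne_zero hc0 ?_
  simpa using hc0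

/-- The tilt charges. -/
theorem tilt (hf : f.IsHomogeneous 4) (h0 : f ≠ 0) (𝒮 : H969Q.SerreFunctor f)
    (σ : H969Q.StabCond f) (hσ : H969Q.SerreInvariant σ 𝒮) (s q μ : ℝ)
    (hZ : ∀ E, H969Q.Ku f E → σ.Z E = H969Q.Zmu s q μ E) : s = -1 / 2 ∧ q = 0 := by
  have hu := uv_ne μ
  have h := charges f hf h0 𝒮 σ hσ ((q - s * Complex.I) / uv μ) (Complex.I / uv μ) (-1 / uv μ)
    (fun E hE => by
      rw [hZ E hE]
      have e : H969Q.Zsq s q E = -((H969Q.ch2 E : ℂ) - q * H969Q.ch0 E) +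
          ((H969Q.ch1 E : ℂ) - s * H969Q.ch0 E) * Complex.I := by
        apply Complex.ext <;> simp [H969Q.Zsq]
      change H969Q.Zsq s q E / uv μ = _
      rw [e]
      ring)
  rcases h with ⟨h1, -⟩ | ⟨h1, h2⟩
  · have h3 : Complex.I = 2 * (q - s * Complex.I) := by
      field_simp at h1
      linear_combination h1
    have hre := congrArg Complex.re h3
    have him := congrArg Complex.im h3
    simp at hre him
    constructor
    · linarith
    · linarith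
  · exfalso
    have h3 : (-1 : ℂ) = 2 * (q - s * Complex.I) := by
      field_simp at h2
      linear_combination h2
    have h4 : Complex.I = (q - s * Complex.I) := by
      field_simp at h1
      linear_combination h1
    have hre := congrArg Complex.re h3
    have hre' := congrArg Complex.re h4
    simp at hre hre'
    linarith

end Pool.Agent.Y197.SI
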