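import Mathlib
import Pool.Agent.Y197.SI.Fin

/-! The exceptional charge. -/

set_option autoImplicit false
set_option linter.unusedSectionVars false
set_option linter.unusedVariables false
set_option maxHeartbeats 800000

open CategoryTheory CategoryTheory.Limits CategoryTheory.Abelian

namespace Pool.Agent.Y197.SI

open Pool.Agent.H969R2 Pool.Agent.H969Q

theorem det_turn : LinearMap.det turn = 1 := by
  rw [← LinearMap.det_toMatrix Complex.basisOneI, Matrix.det_fin_two]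
  simp [LinearMap.toMatrix_apply, turn, Complex.coe_basisOneI]
  norm_num

theorem turn_turn (z : ℂ) : turn (turn z) = -z := by
  apply Complex.ext
  · simp [turn]; ring
  · simp [turn]; ring

/-- The turn as an equivalence. -/
noncomputable def turnE : ℂ ≃ₗ[ℝ] ℂ :=
  LinearEquiv.ofLinearMap turn (-turn)
    (LinearMap.ext fun z => by
      rw [LinearMap.comp_apply, LinearMap.neg_apply, map_neg, turn_turn, neg_neg,
        LinearMap.id_apply])
    (LinearMap.ext fun z => by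
      rw [LinearMap.comp_apply, LinearMap.neg_apply, turn_turn, neg_neg, LinearMap.id_apply])

/-- Multiplication by a nonzero number. -/
noncomputable def mulE (u : ℂ) (hu : u ≠ 0) : ℂ ≃ₗ[ℝ] ℂ :=
  (LinearEquiv.smulOfNeZero ℂ ℂ u hu).restrictScalars ℝ

theorem mulE_apply (u : ℂ) (hu : u ≠ 0) (z : ℂ) : mulE u hu z = u * z := rfl

/-- The turn in the rotated coordinate. -/
noncomputable def turnU (u : ℂ) (hu : u ≠ 0) : ℂ ≃ₗ[ℝ] ℂ :=
  (mulE u hu).trans (turnE.trans (mulE u hu).symm)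

theorem turnU_apply (u : ℂ) (hu : u ≠ 0) (z : ℂ) : turnU u hu (z / u) = turn z / u := by
  have h : (mulE u hu).symm (turn z) = turn z / u := by
    rw [LinearEquiv.symm_apply_eq, mulE_apply]
    field_simp
  have h2 : mulE u hu (z / u) = z := by
    rw [mulE_apply]
    field_simp
  change (mulE u hu).symm (turnE (mulE u hu (z / u))) = _
  rw [h2]
  exact h

theorem det_turnU (u : ℂ) (hu : u ≠ 0) : LinearMap.det (turnU u hu : ℂ →ₗ[ℝ] ℂ) = 1 := by
  have e : (turnU u hu : ℂ →ₗ[ℝ] ℂ) = ((mulE u hu).symm : ℂ →ₗ[ℝ] ℂ) ∘ₗ turn ∘ₗ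
      (((mulE u hu).symm).symm : ℂ →ₗ[ℝ] ℂ) := by
    refine LinearMap.ext fun z => ?_
    rfl
  rw [e, LinearMap.det_conj, det_turn]

theorem sharp (f : MvPolynomial (Fin 5) ℂ) (hf : f.IsHomogeneous 4) (h0 : f ≠ 0) :
    ∃ K₁ K₂ K₃ : (H969R2.Ku (Coh' f) (O' f)).FullSubcategory,
      (∀ a b c : ℝ,
        a * H969R2.ch0 (O' f) K₁.obj + b * H969R2.ch0 (O' f) K₂.obj +
          c * H969R2.ch0 (O' f) K₃.obj = 0 →
        a * H969R2.ch1 (O' f) K₁.obj + b * H969R2.ch1 (O' f) K₂.obj +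
          c * H969R2.ch1 (O' f) K₃.obj = 0 →
        a * H969R2.ch2 (O' f) K₁.obj + b * H969R2.ch2 (O' f) K₂.obj +
          c * H969R2.ch2 (O' f) K₃.obj = 0 → a = 0 ∧ b = 0 ∧ c = 0) ∧
      ∀ (S : (H969R2.Ku (Coh' f) (O' f)).FullSubcategory →
          (H969R2.Ku (Coh' f) (O' f)).FullSubcategory)
        (_ : ∀ E F : (H969R2.Ku (Coh' f) (O' f)).FullSubcategory,
          Nonempty ((E ⟶ F) ≃ₗ[ℂ] Module.Dual ℂ (F ⟶ S E))),
        H969R2.Zsq (O' f) (-1 / 2) 0 (S K₁).obj = turn (H969R2.Zsq (O' f) (-1 / 2) 0 K₁.obj) ∧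
        H969R2.Zsq (O' f) (-1 / 2) 0 (S K₂).obj = turn (H969R2.Zsq (O' f) (-1 / 2) 0 K₂.obj) ∧
        H969R2.Zsq (O' f) (-1 / 2) 0 (S K₃).obj = turn (H969R2.Zsq (O' f) (-1 / 2) 0 K₃.obj) := by
  obtain ⟨K₁, K₂, K₃, a1, a2, a3, hS⟩ := obj f hf h0
  refine ⟨K₁, K₂, K₃, fun a b c => lin (O' f) K₁.obj K₂.obj K₃.obj a1 a2 a3 a b c,
    fun S η => ?_⟩
  obtain ⟨b1, b2, b3⟩ := hS S η
  exact exc (O' f) K₁.obj K₂.obj K₃.obj (S K₁).obj (S K₂).obj (S K₃).obj a1 a2 a3 b1 b2 b3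

end Pool.Agent.Y197.SI
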